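import Pool.Agent.H40.WV.MainW

/-!
# Seed length `O(log n)` for width three and for constant width with good labels

For all constants `w`, `K` there is one explicit generator with seed length `C * log₂ n` such that
for all `n` and `q ≥ 1` with `q ^ E ≤ log₂ n` it fools with error `1 / q` every ordered read-once
branching program of length `n` and width at most `w` which satisfies `GoodRuns P K`: whenever
more than `K * log₂ n` consecutive layers have at least three nodes each, every label of these
layers is injective on the nodes or has at most two images.

For `w = 3` the condition `GoodRuns` is no condition (`width_three` below), since a map between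
layers of three nodes is injective or has at most two images.

The definitions used in the statement are in `Pool.Agent.H9.PRG.Defs` (branching programs,
acceptance probabilities, explicitness) and in `Pool.Agent.H40.WV.Good` (`GoodLabel`, `GoodRuns`).
-/

open Finset

namespace Pool.Agent.Results.MP_10e1ea_lc.ConstantWidth

open Pool.Agent.H9.PRG Pool.Agent.H40.WV

/-- In width three the condition holds for every program. -/
theorem width_three {n : ℕ} (P : ROBP n) (hP : ∀ i ≤ n, P.width i ≤ 3) (K : ℕ) : GoodRuns P K :=
  fun a c hac hcn hac3 hlong => goodRuns_three P hP a c hac hcn hac3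
    ((Nat.zero_mul _).symm ▸ (Nat.zero_le _).trans_lt hlong)

theorem result (w K : ℕ) : ∃ (C E : ℕ) (G : ℕ → ℕ → ℕ → Bool), IsExplicit G ∧
    ∀ n q : ℕ, 1 ≤ q → q ^ E ≤ Nat.log 2 n → ∀ P : ROBP n, (∀ i ≤ n, P.width i ≤ w) →
      GoodRuns P K → |probUnif P - probGen P (G n) (C * Nat.log 2 n)| ≤ 1 / q :=
  wv_main w K

end Pool.Agent.Results.MP_10e1ea_lc.ConstantWidth
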