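import Pool.Agent.H54.Hit.Main

/-!
# Seed length `O(log n)` for regular programs of unbounded width

There is one explicit generator with seed length `C * log₂ n` such that for all `n` and `q` with
`q ^ E ≤ log₂ n` and every ordered read-once branching program `P` of length `n` and of any width
in which at most two edges enter each node: if at most `q` nodes of the last layer accept, then
`P` accepts the output of the generator with probability at least `probUnif P - 1 / q`; if at most
`q` nodes of the last layer reject, then with probability at most `probUnif P + 1 / q`.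

The definitions used in the statement are in `Pool.Agent.H9.PRG.Defs` and
`Pool.Agent.H54.Reg.PDefs`.
-/

open Finset

namespace Pool.Agent.Results.MP_10e1ea_lc.RegularHitting

open Pool.Agent.H9.PRG Pool.Agent.H54.Reg

theorem result : ∃ (C E : ℕ) (G : ℕ → ℕ → ℕ → Bool), IsExplicit G ∧
    ∀ n q : ℕ, 1 ≤ q → q ^ E ≤ Nat.log 2 n → ∀ P : ROBP n, (∀ i < n, RegularLayer P i) →
      (#{v ∈ range (P.width n) | P.accept v = true} ≤ q →
        probUnif P - 1 / q ≤ probGen P (G n) (C * Nat.log 2 n)) ∧
      (#{v ∈ range (P.width n) | P.accept v = false} ≤ q →
        probGen P (G n) (C * Nat.log 2 n) ≤ probUnif P + 1 / q) :=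
  Pool.Agent.H54.Hit.oneSided

end Pool.Agent.Results.MP_10e1ea_lc.RegularHitting
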