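import Pool.Agent.H54.Reg.Final

/-!
# Seed length `O(log n)` for regular branching programs of small width

There is one explicit generator with seed length `C * log₂ n` such that for all `n` and `q` with
`q ^ E ≤ log₂ n` every ordered read-once branching program of length `n` and width at most `q` is
fooled with error `1 / q`, provided that

* all its layers, with at most `q` exceptions, are regular (at most two edges enter any node) or
  reset layers, or
* the nodes that a random input reaches with positive probability less than `1 / q` have total
  weight at most `q` (for example because there are no such nodes).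

In particular all regular programs of constant width, and all programs of constant width without
rarely reached nodes, are fooled with any constant error by seeds of `C * log₂ n` bits.

The definitions used in the statement are in `Pool.Agent.H9.PRG.Defs`, `Pool.Agent.H54.Reg.PDefs`
and `Pool.Agent.H9.RG.Reach`.
-/

open Finset

namespace Pool.Agent.Results.MP_10e1ea_lc.RegularWidth

open Pool.Agent.H9.PRG
open Pool.Agent.H9.RG (reachProb rareWeight)
open Pool.Agent.H54.Reg

open Classical in
theorem result :
    ∃ (C E : ℕ) (G : ℕ → ℕ → ℕ → Bool), IsExplicit G ∧
      ∀ n q : ℕ, 1 ≤ q → q ^ E ≤ Nat.log 2 n → ∀ P : ROBP n, (∀ i ≤ n, P.width i ≤ q) →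
        (#{i ∈ range n | ¬ (RegularLayer P i ∨ ResetLayer P i)} ≤ q ∨
          rareWeight P (1 / q) ≤ q) →
        |probUnif P - probGen P (G n) (C * Nat.log 2 n)| ≤ 1 / q :=
  final

end Pool.Agent.Results.MP_10e1ea_lc.RegularWidth
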