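import Pool.Agent.H9.UW.Final
import Pool.Agent.H73.UW.Final

/-!
# Seed length `O(log n)` for permutation branching programs of unbounded width

For all constants `K` and `ε > 0` there is an explicit generator with seed length `C * log₂ n` such
that for every `n ≥ 2` every ordered read-once branching program of length `n` and of any width in
which different nodes of a layer have different neighbours along the edges with the same label
(`InjSteps`; if all layers have the same size these are the permutation branching programs), and
which has at most `K` accepting nodes, is `ε`-fooled.

All definitions used in the statement are in `Pool.Agent.H9.PRG.Defs` and `Pool.Agent.H9.UW.Defs`.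
-/

open Finset

namespace Pool.Agent.Results.MP_10e1ea_lc.UnboundedWidth

open Pool.Agent.H9.PRG
open Pool.Agent.H9.UW

theorem result (K : ℕ) (ε : ℝ) (hε : 0 < ε) :
    ∃ (C : ℕ) (G : ℕ → ℕ → ℕ → Bool), IsExplicit G ∧
      ∀ n ≥ 2, ∀ P : ROBP n, InjSteps P → #{v ∈ range (P.width n) | P.accept v = true} ≤ K →
        |probUnif P - probGen P (G n) (C * Nat.log 2 n)| ≤ ε :=
  final_of_main Pool.Agent.H73.UW.main K ε hε

end Pool.Agent.Results.MP_10e1ea_lc.UnboundedWidth
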